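import Mathlib
import Pool.Agent.R528.RM.BHOut

set_option autoImplicit false

/-! # The local factors of `(x + s)² + a` -/

open Filter Set Polynomial
open scoped Topology

namespace Pool.Agent.N223.SQ

open Pool.Agent.R528.RM

/-- the polynomial -/
noncomputable def Fs (s a : ℤ) : Finset ℤ[X] := {(X + C s) ^ 2 + C a}

lemma Fs_card (s a : ℤ) : (Fs s a).card = 1 := Finset.card_singleton _

lemma Fs_eval (s a n : ℤ) : ((X + C s) ^ 2 + C a : ℤ[X]).eval n = (n + s) ^ 2 + a := by simp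

lemma good_iff (s a : ℤ) (W n : ℕ) : good (Fs s a) W n ↔ Nat.Coprime (((n : ℤ) + s) ^ 2 + a).natAbs W := by
  unfold good Fs
  simp only [Finset.mem_singleton, forall_eq, Fs_eval]
  rw [Nat.coprime_iff_gcd_eq_one, Int.gcd_def, Int.natAbs_natCast]

lemma omega_eq (s a : ℤ) (p : ℕ) :
    omegaF (Fs s a) p = {r : ℕ | r < p ∧ (p : ℤ) ∣ ((r : ℤ) + s) ^ 2 + a}.ncard := by
  unfold omegaF Fs
  simp only [Finset.prod_singleton, Fs_eval]

lemma omega_two (s a : ℤ) : omegaF (Fs s a) 2 = 1 := by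
  rw [omega_eq, Set.ncard_eq_one]
  have hpar : ∀ r : ℤ, (2 : ℤ) ∣ (r + s) ^ 2 + a ↔ 2 ∣ r + (s + a) := by
    intro r
    have h1 : Even ((r + s) ^ 2 - (r + s)) := by
      have := Int.even_mul_pred_self (r + s)
      have e : (r + s) ^ 2 - (r + s) = (r + s) * (r + s - 1) := by ring
      rwa [e]
    obtain ⟨k, hk⟩ := h1
    constructor
    · rintro ⟨j, hj⟩
      exact ⟨j - k, by linarith⟩
    · rintro ⟨j, hj⟩
      exact ⟨j + k, by linarith⟩
  rcases Int.even_or_odd (s + a) with h | h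
  · refine ⟨0, ?_⟩
    ext r
    simp only [Set.mem_ofPred_eq, Set.mem_singleton_iff]
    obtain ⟨k, hk⟩ := h
    constructor
    · rintro ⟨h1, h2⟩
      have h3 := (hpar r).1 (by exact_mod_cast h2)
      rw [hk] at h3
      omega
    · rintro rfl
      refine ⟨by norm_num, ?_⟩
      have := (hpar 0).2 ⟨k, by rw [hk]; ring⟩
      exact_mod_cast this
  · refine ⟨1, ?_⟩
    ext r
    simp only [Set.mem_ofPred_eq, Set.mem_singleton_iff]
    obtain ⟨k, hk⟩ := h
    constructor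
    · rintro ⟨h1, h2⟩
      have h3 := (hpar r).1 (by exact_mod_cast h2)
      rw [hk] at h3
      omega
    · rintro rfl
      refine ⟨by norm_num, ?_⟩
      have := (hpar 1).2 ⟨k + 1, by rw [hk]; ring⟩
      exact_mod_cast this

lemma omega_odd (s a : ℤ) (p : ℕ) (hp : p.Prime) (hp2 : p ≠ 2) :
    (omegaF (Fs s a) p : ℤ) = jacobiSym (-a) p + 1 := by
  classical
  have : Fact p.Prime := ⟨hp⟩
  have h1 := legendreSym.card_sqrts p hp2 (-a)
  rw [jacobiSym.legendreSym.to_jacobiSym] at h1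
  rw [← h1, omega_eq]
  norm_cast
  rw [← Set.ncard_eq_toFinset_card']
  refine Set.ncard_congr (fun r _ => ((r : ZMod p) + (s : ZMod p))) ?_ ?_ ?_
  · rintro r ⟨hr1, hr2⟩
    have h5 : ((((r : ℤ) + s) ^ 2 + a : ℤ) : ZMod p) = 0 := (ZMod.intCast_zmod_eq_zero_iff_dvd _ _).2 hr2
    push_cast at h5
    simp only [Set.mem_ofPred_eq]
    push_cast
    linear_combination h5
  · rintro x y ⟨hx, _⟩ ⟨hy, _⟩ hxy
    have h6 : (x : ZMod p) = y := by linear_combination hxy
    have h7 := (ZMod.natCast_eq_natCast_iff' x y p).1 h6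
    rwa [Nat.mod_eq_of_lt hx, Nat.mod_eq_of_lt hy] at h7
  · intro x hx
    simp only [Set.mem_ofPred_eq] at hx
    push_cast at hx
    refine ⟨(x - (s : ZMod p)).val, ⟨ZMod.val_lt _, ?_⟩, ?_⟩
    · rw [← ZMod.intCast_zmod_eq_zero_iff_dvd]
      push_cast
      rw [ZMod.natCast_zmod_val]
      linear_combination hx
    · rw [ZMod.natCast_zmod_val]
      ring

/-- the truncated constant `h_a` -/
noncomputable def coef (Q : Finset ℕ) (a : ℤ) : ℝ :=
  ∏ p ∈ Q.erase 2, (1 - (jacobiSym (-a) p : ℝ) / ((p : ℝ) - 1))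

lemma coef_eq (Q : Finset ℕ) (hQ : ∀ p ∈ Q, p.Prime) (s a : ℤ) :
    ((Nat.count (good (Fs s a) (∏ p ∈ Q, p)) (∏ p ∈ Q, p) : ℝ) / ((∏ p ∈ Q, p : ℕ) : ℝ)) *
      (((∏ p ∈ Q, p : ℕ) : ℝ) / Nat.totient (∏ p ∈ Q, p)) = coef Q a := by
  classical
  have h1 := const_prod (Fs s a) Q hQ
  rw [Fs_card, pow_one] at h1
  rw [h1]
  simp only [pow_one]
  have h2 : (Nat.count (good (Fs s a) 2) 2 : ℝ) / (2 : ℕ) * (1 - 1 / ((2 : ℕ) : ℝ))⁻¹ = 1 := by
    have h3 := omega_good (Fs s a) Nat.prime_two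
    rw [omega_two s a] at h3
    have h4 : Nat.count (good (Fs s a) 2) 2 = 1 := by omega
    rw [h4]
    norm_num
  have h4 : ∀ p ∈ Q.erase 2, (Nat.count (good (Fs s a) p) p : ℝ) / p * (1 - 1 / (p : ℝ))⁻¹ =
      1 - (jacobiSym (-a) p : ℝ) / ((p : ℝ) - 1) := by
    intro p hp
    rw [Finset.mem_erase] at hp
    have hpp := hQ p hp.2
    have h3 := omega_good (Fs s a) hpp
    have h5 := omega_odd s a p hpp hp.1
    have h6 : (Nat.count (good (Fs s a) p) p : ℝ) + omegaF (Fs s a) p = p := by exact_mod_cast h3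
    have h7 : (omegaF (Fs s a) p : ℝ) = (jacobiSym (-a) p : ℝ) + 1 := by exact_mod_cast h5
    have h8 : (1 : ℝ) < p := by exact_mod_cast hpp.one_lt
    have h9 : (p : ℝ) - 1 ≠ 0 := by linarith
    have h10 : (p : ℝ) ≠ 0 := by linarith
    have h11 : (Nat.count (good (Fs s a) p) p : ℝ) = p - 1 - (jacobiSym (-a) p : ℝ) := by linarith
    rw [h11, one_sub_div h10, inv_div]
    field_simp
  unfold coef
  by_cases h : 2 ∈ Q
  · rw [← Finset.mul_prod_erase Q _ h, h2, Finset.prod_congr rfl h4, one_mul]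
  · rw [Finset.erase_eq_of_notMem h]
    rw [Finset.erase_eq_of_notMem h] at h4
    rw [Finset.prod_congr rfl h4]

/-- a lower bound which does not depend on `a` -/
lemma coef_ge (Q : Finset ℕ) (hQ : ∀ p ∈ Q, p.Prime) (a : ℤ) :
    ∏ p ∈ Q.erase 2, (1 - 1 / ((p : ℝ) - 1)) ≤ coef Q a ∧
      0 < ∏ p ∈ Q.erase 2, (1 - 1 / ((p : ℝ) - 1)) := by
  have h3 : ∀ p ∈ Q.erase 2, (3 : ℝ) ≤ p := by
    intro p hp
    rw [Finset.mem_erase] at hp
    have := (hQ p hp.2).two_le
    have h : 3 ≤ p := by omega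
    exact_mod_cast h
  refine ⟨?_, ?_⟩
  · unfold coef
    refine Finset.prod_le_prod ?_ ?_
    · intro p hp
      have := h3 p hp
      rw [sub_nonneg, div_le_one (by linarith)]
      linarith
    · intro p hp
      have h5 := h3 p hp
      have h6 : (jacobiSym (-a) p : ℝ) ≤ 1 := by
        have : jacobiSym (-a) p ≤ 1 := by
          rcases jacobiSym.trichotomy (-a) p with h | h | h <;> omega
        exact_mod_cast this
      have h7 : (jacobiSym (-a) p : ℝ) / ((p : ℝ) - 1) ≤ 1 / ((p : ℝ) - 1) :=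
        div_le_div_of_nonneg_right h6 (by linarith)
      linarith
  · refine Finset.prod_pos fun p hp => ?_
    have := h3 p hp
    rw [sub_pos, div_lt_one (by linarith)]
    linarith

end Pool.Agent.N223.SQ
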