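import Mathlib
import Pool.Agent.N860.HL.Ana
import Pool.Agent.N223.SQ.Const

set_option autoImplicit false

/-! # Sums of `1 / log |n² + a|` over periodic sets -/

open Filter Set
open scoped Topology

namespace Pool.Agent.N223.SQ

open Pool.Agent.N860.HL Pool.Agent.R528.RM

/-- `1 / log max(m, 2)` -/
noncomputable def g (m : ℕ) : ℝ := 1 / Real.log ((max m 2 : ℕ) : ℝ)

/-- `1 / log max(|n² + a|, 2)` -/
noncomputable def w (a n : ℤ) : ℝ := g (n ^ 2 + a).natAbs

lemma log_pos' (m : ℕ) : 0 < Real.log ((max m 2 : ℕ) : ℝ) := by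
  apply Real.log_pos
  have : 2 ≤ max m 2 := le_max_right _ _
  exact_mod_cast (show 1 < max m 2 by omega)

lemma g_pos (m : ℕ) : 0 < g m := by
  unfold g
  exact div_pos one_pos (log_pos' m)

lemma g_anti {m k : ℕ} (h : m ≤ k) : g k ≤ g m := by
  unfold g
  apply one_div_le_one_div_of_le (log_pos' m)
  apply Real.log_le_log
  · have : 2 ≤ max m 2 := le_max_right _ _
    exact_mod_cast (show 0 < max m 2 by omega)
  · exact_mod_cast max_le_max_right 2 h

lemma g_le (m : ℕ) : g m ≤ g 0 := g_anti (Nat.zero_le _)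

lemma w_split (t : ℤ) : g t.natAbs = g (-t).toNat + g t.toNat - g 0 := by
  rcases le_total 0 t with h | h
  · have h1 : (-t).toNat = 0 := by omega
    have h2 : t.natAbs = t.toNat := by omega
    rw [h1, h2]
    ring
  · have h1 : t.toNat = 0 := by omega
    have h2 : t.natAbs = (-t).toNat := by omega
    rw [h1, h2]
    ring

lemma sq_split (G : ℤ → ℝ) (a n : ℤ) :
    G (n ^ 2 + a) = G ((max n 0) ^ 2 + a) + G ((max (-n) 0) ^ 2 + a) - G a := by
  rcases le_total 0 n with h | h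
  · rw [max_eq_left h, max_eq_right (by omega)]
    norm_num
  · rw [max_eq_right h, max_eq_left (by omega)]
    norm_num

/-- antitone weights -/
lemma anti_bound (b h : ℕ → ℝ) (K : ℝ) (hB : ∀ k, |∑ i ∈ Finset.range k, b i| ≤ K) (h0 : ∀ n, 0 ≤ h n)
    (h1 : ∀ n, h n ≤ g 0) (hm : ∀ n, h (n + 1) ≤ h n) (N : ℕ) :
    |∑ i ∈ Finset.range N, b i * h i| ≤ K * g 0 := by
  have hK : 0 ≤ K := (abs_nonneg _).trans (hB 0)
  exact (abel_bound b h hm h0 K hB N).trans (mul_le_mul_of_nonneg_left (h1 0) hK)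

lemma const_bound (b : ℕ → ℝ) (c K : ℝ) (hB : ∀ k, |∑ i ∈ Finset.range k, b i| ≤ K) (h0 : 0 ≤ c)
    (h1 : c ≤ g 0) (N : ℕ) :
    |∑ i ∈ Finset.range N, b i * c| ≤ K * g 0 :=
  anti_bound b (fun _ => c) K hB (fun _ => h0) (fun _ => h1) (fun _ => le_refl _) N

/-- monotone weights -/
lemma mono_bound (b h : ℕ → ℝ) (K : ℝ) (hB : ∀ k, |∑ i ∈ Finset.range k, b i| ≤ K) (h0 : ∀ n, 0 ≤ h n)
    (h1 : ∀ n, h n ≤ g 0) (hm : ∀ n, h n ≤ h (n + 1)) (N : ℕ) :
    |∑ i ∈ Finset.range N, b i * h i| ≤ 2 * (K * g 0) := by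
  have e1 : ∑ i ∈ Finset.range N, b i * h i =
      ∑ i ∈ Finset.range N, b i * g 0 - ∑ i ∈ Finset.range N, b i * (g 0 - h i) := by
    rw [← Finset.sum_sub_distrib]
    refine Finset.sum_congr rfl fun i _ => ?_
    ring
  rw [e1]
  have h2 := const_bound b (g 0) K hB (g_pos 0).le le_rfl N
  have h3 := anti_bound b (fun i => g 0 - h i) K hB (fun n => by linarith [h1 n]) (fun n => by linarith [h0 n])
    (fun n => by linarith [hm n]) N
  have h4 := abs_sub (∑ i ∈ Finset.range N, b i * g 0) (∑ i ∈ Finset.range N, b i * (g 0 - h i))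
  linarith

/-- the weight `w` -/
lemma w_bound (b : ℕ → ℝ) (K : ℝ) (hB : ∀ k, |∑ i ∈ Finset.range k, b i| ≤ K) (s a : ℤ) (N : ℕ) :
    |∑ i ∈ Finset.range N, b i * w a (i + s)| ≤ 9 * (K * g 0) := by
  have e0 : ∀ i : ℕ, w a (i + s) =
      (g (-((max ((i : ℤ) + s) 0) ^ 2 + a)).toNat + g (-((max (-((i : ℤ) + s)) 0) ^ 2 + a)).toNat - g (-a).toNat) +
      (g ((max ((i : ℤ) + s) 0) ^ 2 + a).toNat + g ((max (-((i : ℤ) + s)) 0) ^ 2 + a).toNat - g a.toNat) - g 0 := by
    intro i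
    unfold w
    rw [w_split, sq_split (fun t => g (-t).toNat), sq_split (fun t => g t.toNat)]
  have hp : ∀ i : ℕ, 0 ≤ max ((i : ℤ) + s) 0 ∧ max ((i : ℤ) + s) 0 ≤ max (((i + 1 : ℕ) : ℤ) + s) 0 := by
    intro i
    refine ⟨le_max_right _ _, max_le_max_right _ (by push_cast; omega)⟩
  have hq : ∀ i : ℕ, 0 ≤ max (-(((i + 1 : ℕ) : ℤ) + s)) 0 ∧
      max (-(((i + 1 : ℕ) : ℤ) + s)) 0 ≤ max (-((i : ℤ) + s)) 0 := by
    intro i
    refine ⟨le_max_right _ _, max_le_max_right _ (by push_cast; omega)⟩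
  have hp2 : ∀ i : ℕ, (max ((i : ℤ) + s) 0) ^ 2 ≤ (max (((i + 1 : ℕ) : ℤ) + s) 0) ^ 2 := by
    intro i
    obtain ⟨h1, h2⟩ := hp i
    exact pow_le_pow_left₀ h1 h2 2
  have hq2 : ∀ i : ℕ, (max (-(((i + 1 : ℕ) : ℤ) + s)) 0) ^ 2 ≤ (max (-((i : ℤ) + s)) 0) ^ 2 := by
    intro i
    obtain ⟨h1, h2⟩ := hq i
    exact pow_le_pow_left₀ h1 h2 2
  have hA1 := mono_bound b (fun i => g (-((max ((i : ℤ) + s) 0) ^ 2 + a)).toNat) K hB (fun _ => (g_pos _).le)
    (fun _ => g_le _) (fun i => g_anti (by have := hp2 i; omega)) N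
  have hA2 := anti_bound b (fun i => g (-((max (-((i : ℤ) + s)) 0) ^ 2 + a)).toNat) K hB (fun _ => (g_pos _).le)
    (fun _ => g_le _) (fun i => g_anti (by have := hq2 i; omega)) N
  have hA3 := anti_bound b (fun i => g ((max ((i : ℤ) + s) 0) ^ 2 + a).toNat) K hB (fun _ => (g_pos _).le)
    (fun _ => g_le _) (fun i => g_anti (by have := hp2 i; omega)) N
  have hA4 := mono_bound b (fun i => g ((max (-((i : ℤ) + s)) 0) ^ 2 + a).toNat) K hB (fun _ => (g_pos _).le)
    (fun _ => g_le _) (fun i => g_anti (by have := hq2 i; omega)) N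
  have hC1 := const_bound b (g (-a).toNat) K hB (g_pos _).le (g_le _) N
  have hC2 := const_bound b (g a.toNat) K hB (g_pos _).le (g_le _) N
  have hC3 := const_bound b (g 0) K hB (g_pos _).le le_rfl N
  have e1 : ∑ i ∈ Finset.range N, b i * w a (i + s) =
      ∑ i ∈ Finset.range N, b i * g (-((max ((i : ℤ) + s) 0) ^ 2 + a)).toNat +
      ∑ i ∈ Finset.range N, b i * g (-((max (-((i : ℤ) + s)) 0) ^ 2 + a)).toNat +
      ∑ i ∈ Finset.range N, b i * g ((max ((i : ℤ) + s) 0) ^ 2 + a).toNat +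
      ∑ i ∈ Finset.range N, b i * g ((max (-((i : ℤ) + s)) 0) ^ 2 + a).toNat -
      ∑ i ∈ Finset.range N, b i * g (-a).toNat - ∑ i ∈ Finset.range N, b i * g a.toNat -
      ∑ i ∈ Finset.range N, b i * g 0 := by
    rw [← Finset.sum_add_distrib, ← Finset.sum_add_distrib, ← Finset.sum_add_distrib,
      ← Finset.sum_sub_distrib, ← Finset.sum_sub_distrib, ← Finset.sum_sub_distrib]
    refine Finset.sum_congr rfl fun i _ => ?_
    rw [e0 i]
    ring
  rw [e1]
  rw [abs_le] at *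
  constructor <;> linarith

/-- the sum over the good residues -/
lemma class_sum (W : ℕ) (hW : 0 < W) (s a : ℤ) (x : ℕ) :
    |∑ i ∈ Finset.range x, (if good (Fs s a) W i then w a (i + s) else 0) -
      ((Nat.count (good (Fs s a) W) W : ℝ) / W) * ∑ i ∈ Finset.range x, w a (i + s)| ≤ 9 * (W * g 0) := by
  classical
  set G : ℝ := (Nat.count (good (Fs s a) W) W : ℝ) / W
  have h1 : ∀ k, |∑ i ∈ Finset.range k, ((if good (Fs s a) W i then (1 : ℝ) else 0) - G)| ≤ W := by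
    intro k
    have h2 := count_bound (good (Fs s a) W) W hW (good_periodic (Fs s a) W) k
    rw [Finset.sum_sub_distrib, Finset.sum_const, Finset.card_range, nsmul_eq_mul]
    rw [Nat.count_eq_card_filter_range, Finset.card_filter] at h2
    push_cast at h2
    exact h2
  have h3 := w_bound _ W h1 s a x
  have e1 : ∑ i ∈ Finset.range x, (if good (Fs s a) W i then w a (i + s) else 0) -
      G * ∑ i ∈ Finset.range x, w a (i + s) =
      ∑ i ∈ Finset.range x, ((if good (Fs s a) W i then (1 : ℝ) else 0) - G) * w a (i + s) := by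
    rw [Finset.mul_sum, ← Finset.sum_sub_distrib]
    refine Finset.sum_congr rfl fun i _ => ?_
    split_ifs <;> ring
  rw [e1]
  exact h3

/-- a value is taken at most four times -/
lemma mult_le (s a : ℤ) (t x : ℕ) :
    ((Finset.range x).filter (fun j : ℕ => (((j : ℤ) + s) ^ 2 + a).natAbs = t)).card ≤ 4 := by
  classical
  have key : ∀ u : ℤ, ∃ v : ℤ, ∀ n : ℤ, n ^ 2 = u → n = v ∨ n = -v := by
    intro u
    by_cases h : ∃ v : ℤ, v ^ 2 = u
    · obtain ⟨v, hv⟩ := h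
      exact ⟨v, fun n hn => sq_eq_sq_iff_eq_or_eq_neg.1 (hn.trans hv.symm)⟩
    · exact ⟨0, fun n hn => absurd ⟨n, hn⟩ h⟩
  obtain ⟨v1, h1⟩ := key (t - a)
  obtain ⟨v2, h2⟩ := key (-t - a)
  have hsub : (Finset.range x).filter (fun j : ℕ => (((j : ℤ) + s) ^ 2 + a).natAbs = t) ⊆
      {(v1 - s).toNat, (-v1 - s).toNat, (v2 - s).toNat, (-v2 - s).toNat} := by
    intro j hj
    have hj2 := (Finset.mem_filter.1 hj).2
    simp only [Finset.mem_insert, Finset.mem_singleton]
    rcases Int.natAbs_eq_iff.1 hj2 with h | h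
    · rcases h1 ((j : ℤ) + s) (by linarith) with h3 | h3
      · left; omega
      · right; left; omega
    · rcases h2 ((j : ℤ) + s) (by linarith) with h3 | h3
      · right; right; left; omega
      · right; right; right; omega
  refine (Finset.card_le_card hsub).trans ?_
  exact Finset.card_le_four

end Pool.Agent.N223.SQ
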