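import Mathlib
import Pool.Agent.N223.UB.Gen
import Pool.Agent.N223.SQ.Sum

set_option autoImplicit false

/-! # The law for `n² + a`, uniformly in `a` and in the window -/

open MeasureTheory Filter
open scoped Topology

namespace Pool.Agent.N223.SQ

open Pool.Agent.R528.RM Pool.Agent.N909.TF Pool.Agent.N223.UB Pool.Agent.N860.HL

/-- the parameter `a` -/
def ea (c : ℕ) : ℤ := Equiv.intEquivNat.symm c.unpair.1

/-- the parameter `z + 1` -/
def es (c : ℕ) : ℤ := Equiv.intEquivNat.symm c.unpair.2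

/-- the index -/
def ec (a s : ℤ) : ℕ := Nat.pair (Equiv.intEquivNat a) (Equiv.intEquivNat s)

lemma ea_ec (a s : ℤ) : ea (ec a s) = a := by simp [ea, ec]

lemma es_ec (a s : ℤ) : es (ec a s) = s := by simp [es, ec]

lemma enc_le (a : ℤ) : Equiv.intEquivNat a ≤ 2 * a.natAbs := by
  rcases a with n | n
  · have : Equiv.intEquivNat (Int.ofNat n) = 2 * n := by
      simp only [Equiv.intEquivNat, Equiv.intEquivNatSumNat, Equiv.natSumNatEquivNat]
      rfl
    rw [this]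
    simp
  · have : Equiv.intEquivNat (Int.negSucc n) = 2 * n + 1 := by
      simp only [Equiv.intEquivNat, Equiv.intEquivNatSumNat, Equiv.natSumNatEquivNat]
      rfl
    rw [this, Int.natAbs_negSucc]
    omega

/-- the value -/
def val (a s : ℤ) (j : ℕ) : ℕ := (((j : ℤ) + s) ^ 2 + a).natAbs

lemma val_le (a s : ℤ) (C x j : ℕ) (hx : 3 ≤ x) (ha : a.natAbs ≤ x ^ C) (hs : s.natAbs ≤ x ^ C + 1) (hj : j < x) :
    val a s j ≤ x ^ (2 * C + 4) := by
  have h1 : 1 ≤ x ^ C := Nat.one_le_pow _ _ (by omega)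
  have h2 : ((j : ℤ) + s).natAbs ≤ 2 * x ^ C * x := by
    have h3 : ((j : ℤ) + s).natAbs ≤ j + s.natAbs := by
      have := Int.natAbs_add_le (j : ℤ) s
      rwa [Int.natAbs_natCast] at this
    have h4 : j + 1 ≤ x ^ C * x := by nlinarith
    have h5 : x ^ C ≤ x ^ C * x := Nat.le_mul_of_pos_right _ (by omega)
    have e : 2 * x ^ C * x = x ^ C * x + x ^ C * x := by ring
    omega
  have h6 : val a s j ≤ ((j : ℤ) + s).natAbs ^ 2 + a.natAbs := by
    unfold val
    refine (Int.natAbs_add_le _ _).trans ?_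
    rw [Int.natAbs_pow]
  have h7 : ((j : ℤ) + s).natAbs ^ 2 ≤ (2 * x ^ C * x) ^ 2 := Nat.pow_le_pow_left h2 2
  have h8 : (2 * x ^ C * x) ^ 2 + x ^ C ≤ x ^ (2 * C + 4) := by
    have e1 : x ^ (2 * C + 4) = (x ^ C) ^ 2 * x ^ 2 * x ^ 2 := by ring
    have e2 : (2 * x ^ C * x) ^ 2 = 4 * ((x ^ C) ^ 2 * x ^ 2) := by ring
    rw [e1, e2]
    have h9 : 9 ≤ x ^ 2 := by nlinarith
    have h10 : x ^ C ≤ (x ^ C) ^ 2 * x ^ 2 := by
      have h11 : x ^ C ≤ (x ^ C) ^ 2 := by nlinarith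
      have h12 : (x ^ C) ^ 2 ≤ (x ^ C) ^ 2 * x ^ 2 := Nat.le_mul_of_pos_right _ (by positivity)
      omega
    have h13 : 9 * ((x ^ C) ^ 2 * x ^ 2) ≤ (x ^ C) ^ 2 * x ^ 2 * x ^ 2 := by
      rw [mul_comm]
      exact Nat.mul_le_mul_left _ h9
    omega
  omega

lemma ec_le (a s : ℤ) (C x : ℕ) (hx : 3 ≤ x) (ha : a.natAbs ≤ x ^ C) (hs : s.natAbs ≤ x ^ C + 1) :
    ec a s ≤ x ^ (2 * C + 4) := by
  have h1 : 1 ≤ x ^ C := Nat.one_le_pow _ _ (by omega)
  have h2 := enc_le a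
  have h3 := enc_le s
  have h4 := Nat.pair_lt_max_add_one_sq (Equiv.intEquivNat a) (Equiv.intEquivNat s)
  have h5 : max (Equiv.intEquivNat a) (Equiv.intEquivNat s) + 1 ≤ 5 * x ^ C := by
    have : max (Equiv.intEquivNat a) (Equiv.intEquivNat s) ≤ 2 * x ^ C + 2 := max_le (by omega) (by omega)
    omega
  have h6 := Nat.pow_le_pow_left h5 2
  have h7 : (5 * x ^ C) ^ 2 ≤ x ^ (2 * C + 4) := by
    have e1 : x ^ (2 * C + 4) = (x ^ C) ^ 2 * x ^ 4 := by ring
    have e2 : (5 * x ^ C) ^ 2 = (x ^ C) ^ 2 * 25 := by ring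
    rw [e1, e2]
    have h8 : 3 ^ 4 ≤ x ^ 4 := Nat.pow_le_pow_left hx 4
    exact Nat.mul_le_mul_left _ (by omega)
  unfold ec
  omega

/-- the window as indices -/
lemma sum_window (f : ℤ → ℝ) (z : ℤ) (x : ℕ) :
    ∑ n ∈ Finset.Ioc z (z + x), f n = ∑ i ∈ Finset.range x, f ((i : ℤ) + (z + 1)) := by
  symm
  refine Finset.sum_nbij' (fun i : ℕ => (i : ℤ) + (z + 1)) (fun n => (n - (z + 1)).toNat) ?_ ?_ ?_ ?_ ?_
  · intro i hi
    rw [Finset.mem_range] at hi
    rw [Finset.mem_Ioc]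
    omega
  · intro n hn
    rw [Finset.mem_Ioc] at hn
    rw [Finset.mem_range]
    omega
  · intro i hi
    show ((((i : ℕ) : ℤ) + (z + 1)) - (z + 1)).toNat = i
    omega
  · intro n hn
    rw [Finset.mem_Ioc] at hn
    show (((n - (z + 1)).toNat : ℕ) : ℤ) + (z + 1) = n
    omega
  · intro i _
    rfl

lemma card_window (P : ℕ → Prop) [DecidablePred P] (a z : ℤ) (x : ℕ) :
    {n : ℤ | z < n ∧ n ≤ z + x ∧ P (n ^ 2 + a).natAbs}.ncard =
      ((Finset.range x).filter (fun j => P (val a (z + 1) j))).card := by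
  classical
  have h1 : {n : ℤ | z < n ∧ n ≤ z + x ∧ P (n ^ 2 + a).natAbs} =
      (((Finset.range x).filter (fun j => P (val a (z + 1) j))).image (fun i : ℕ => (i : ℤ) + (z + 1)) : Finset ℤ) := by
    ext n
    simp only [Set.mem_ofPred_eq, Finset.coe_image, Finset.coe_filter, Finset.mem_range, Set.mem_image]
    constructor
    · rintro ⟨h1, h2, h3⟩
      refine ⟨(n - (z + 1)).toNat, ⟨by omega, ?_⟩, by omega⟩
      unfold val
      have e : (((n - (z + 1)).toNat : ℕ) : ℤ) + (z + 1) = n := by omega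
      rw [e]
      exact h3
    · rintro ⟨j, ⟨h1, h2⟩, rfl⟩
      exact ⟨by omega, by omega, h2⟩
  rw [h1, Set.ncard_coe_finset, Finset.card_image_of_injective]
  intro i j hij
  simp only at hij
  omega

/-- the main term -/
noncomputable def MT (Q : Finset ℕ) (a z : ℤ) (x : ℕ) : ℝ := coef Q a * ∑ n ∈ Finset.Ioc z (z + x), w a n

lemma w_ge (a s : ℤ) (C x j : ℕ) (hx : 3 ≤ x) (ha : a.natAbs ≤ x ^ C) (hs : s.natAbs ≤ x ^ C + 1) (hj : j < x) :
    1 / ((2 * C + 4) * Real.log x) ≤ w a ((j : ℤ) + s) := by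
  have h1 := val_le a s C x j hx ha hs hj
  have hx' : (3 : ℝ) ≤ x := by exact_mod_cast hx
  have h2 : max (val a s j) 2 ≤ x ^ (2 * C + 4) := by
    refine max_le h1 ?_
    calc 2 ≤ x ^ 1 := by rw [pow_one]; omega
      _ ≤ x ^ (2 * C + 4) := Nat.pow_le_pow_right (by omega) (by omega)
  unfold w g
  apply one_div_le_one_div_of_le (log_pos' _)
  have h3 : Real.log ((max (val a s j) 2 : ℕ) : ℝ) ≤ Real.log ((x : ℝ) ^ (2 * C + 4)) := by
    apply Real.log_le_log
    · have : 2 ≤ max (val a s j) 2 := le_max_right _ _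
      exact_mod_cast (show 0 < max (val a s j) 2 by omega)
    · exact_mod_cast h2
  rw [Real.log_pow] at h3
  have h5 : (((2 * C + 4 : ℕ) : ℕ) : ℝ) = 2 * C + 4 := by push_cast; ring
  rw [h5] at h3
  exact h3

lemma MT_ge (Q : Finset ℕ) (hQ : ∀ p ∈ Q, p.Prime) (a z : ℤ) (C x : ℕ) (hx : 3 ≤ x) (ha : a.natAbs ≤ x ^ C)
    (hz : z.natAbs ≤ x ^ C) :
    (∏ p ∈ Q.erase 2, (1 - 1 / ((p : ℝ) - 1))) * (x / ((2 * C + 4) * Real.log x)) ≤ MT Q a z x := by
  have hx' : (3 : ℝ) ≤ x := by exact_mod_cast hx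
  have hL : 0 < Real.log x := Real.log_pos (by linarith)
  unfold MT
  obtain ⟨h1, h2⟩ := coef_ge Q hQ a
  refine mul_le_mul h1 ?_ (by positivity) (h2.le.trans h1)
  rw [sum_window]
  have hs : (z + 1).natAbs ≤ x ^ C + 1 := by omega
  have h3 : ∀ i ∈ Finset.range x, 1 / ((2 * C + 4) * Real.log x) ≤ w a ((i : ℤ) + (z + 1)) := fun i hi =>
    w_ge a (z + 1) C x i hx ha hs (Finset.mem_range.1 hi)
  have h4 := Finset.card_nsmul_le_sum _ _ _ h3
  rw [Finset.card_range, nsmul_eq_mul] at h4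
  refine le_trans (le_of_eq ?_) h4
  ring

variable {Ω : Type} {m0 : MeasurableSpace Ω} {μ : Measure Ω} [IsProbabilityMeasure μ]
  {ℱ : Filtration ℕ m0} {S : ℕ → Set Ω}

/-- the indices -/
def JJ (x c : ℕ) : Finset ℕ := (Finset.range x).filter (fun j => 2 ≤ val (ea c) (es c) j)

/-- the values -/
def TT (_x c j : ℕ) : Finset ℕ := {val (ea c) (es c) j}

lemma small_le (a s : ℤ) (x : ℕ) : ((Finset.range x).filter (fun j => ¬ 2 ≤ val a s j)).card ≤ 8 := by
  classical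
  have h1 : (Finset.range x).filter (fun j => ¬ 2 ≤ val a s j) ⊆
      (Finset.range x).filter (fun j : ℕ => (((j : ℤ) + s) ^ 2 + a).natAbs = 0) ∪
      (Finset.range x).filter (fun j : ℕ => (((j : ℤ) + s) ^ 2 + a).natAbs = 1) := by
    intro j hj
    rw [Finset.mem_filter] at hj
    rw [Finset.mem_union, Finset.mem_filter, Finset.mem_filter]
    have h2 := hj.2
    unfold val at h2
    rcases Nat.lt_or_ge 0 (((j : ℤ) + s) ^ 2 + a).natAbs with h | h
    · right
      exact ⟨hj.1, by omega⟩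
    · left
      exact ⟨hj.1, by omega⟩
  have h2 := (Finset.card_le_card h1).trans (Finset.card_union_le _ _)
  have h3 := mult_le s a 0 x
  have h4 := mult_le s a 1 x
  omega

/-- the expected number -/
lemma EE_eq (Q : Finset ℕ) (hQ : ∀ p ∈ Q, p.Prime) (a z : ℤ) (x : ℕ) :
    |EE (∏ p ∈ Q, p) (JJ x (ec a (z + 1))) (TT x (ec a (z + 1))) - MT Q a z x| ≤
      (((∏ p ∈ Q, p : ℕ) : ℝ) / Nat.totient (∏ p ∈ Q, p)) * ((9 * (∏ p ∈ Q, p : ℕ) + 8) * g 0) := by
  classical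
  set W := ∏ p ∈ Q, p with hWdef
  have hW : 0 < W := Finset.prod_pos fun q hq => (hQ q hq).pos
  set r : ℝ := (W : ℝ) / Nat.totient W with hr
  have hr0 : 0 ≤ r := by positivity
  set s : ℤ := z + 1 with hs
  have h1 : EE W (JJ x (ec a s)) (TT x (ec a s)) =
      r * ∑ i ∈ Finset.range x, (if good (Fs s a) W i ∧ 2 ≤ val a s i then w a ((i : ℤ) + s) else 0) := by
    unfold EE cop JJ TT
    rw [Finset.filter_filter, Finset.sum_filter, Finset.mul_sum]
    refine Finset.sum_congr rfl fun i _ => ?_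
    rw [ea_ec, es_ec, Finset.prod_singleton]
    simp only [Finset.mem_singleton, forall_eq]
    have e1 : good (Fs s a) W i ↔ Nat.Coprime (val a s i) W := good_iff s a W i
    by_cases h : 2 ≤ val a s i ∧ Nat.Coprime (val a s i) W
    · rw [if_pos h, if_pos ⟨e1.2 h.2, h.1⟩]
      unfold w g
      have e2 : max (((i : ℤ) + s) ^ 2 + a).natAbs 2 = val a s i := max_eq_left h.1
      rw [e2]
      ring
    · rw [if_neg h, if_neg (fun h' => h ⟨h'.2, e1.1 h'.1⟩), mul_zero]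
  have h2 : |∑ i ∈ Finset.range x, (if good (Fs s a) W i ∧ 2 ≤ val a s i then w a ((i : ℤ) + s) else 0) -
      ∑ i ∈ Finset.range x, (if good (Fs s a) W i then w a ((i : ℤ) + s) else 0)| ≤ 8 * g 0 := by
    rw [← Finset.sum_sub_distrib]
    refine (Finset.abs_sum_le_sum_abs _ _).trans ?_
    have h3 : ∀ i ∈ Finset.range x, |(if good (Fs s a) W i ∧ 2 ≤ val a s i then w a ((i : ℤ) + s) else 0) -
        (if good (Fs s a) W i then w a ((i : ℤ) + s) else 0)| ≤ if ¬ 2 ≤ val a s i then g 0 else 0 := by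
      intro i _
      have hw0 : 0 ≤ w a ((i : ℤ) + s) := (g_pos _).le
      have hw1 : w a ((i : ℤ) + s) ≤ g 0 := g_le _
      by_cases h4 : 2 ≤ val a s i
      · rw [if_neg (not_not.2 h4)]
        by_cases h5 : good (Fs s a) W i
        · rw [if_pos ⟨h5, h4⟩, if_pos h5, sub_self, abs_zero]
        · rw [if_neg (fun h => h5 h.1), if_neg h5, sub_self, abs_zero]
      · rw [if_pos h4, if_neg (fun h => h4 h.2), zero_sub, abs_neg]
        split_ifs
        · rwa [abs_of_nonneg hw0]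
        · rw [abs_zero]
          exact (g_pos 0).le
    refine (Finset.sum_le_sum h3).trans ?_
    rw [← Finset.sum_filter, Finset.sum_const, nsmul_eq_mul]
    refine mul_le_mul_of_nonneg_right ?_ (g_pos 0).le
    exact_mod_cast small_le a s x
  have h4 := class_sum W hW s a x
  have h5 := coef_eq Q hQ s a
  rw [← hWdef] at h5
  rw [h1]
  unfold MT
  rw [sum_window, ← hs, ← h5]
  set T1 := ∑ i ∈ Finset.range x, (if good (Fs s a) W i ∧ 2 ≤ val a s i then w a ((i : ℤ) + s) else 0)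
  set T2 := ∑ i ∈ Finset.range x, (if good (Fs s a) W i then w a ((i : ℤ) + s) else 0)
  set T3 := ∑ i ∈ Finset.range x, w a ((i : ℤ) + s)
  have e1 : r * T1 - (Nat.count (good (Fs s a) W) W : ℝ) / W * ((W : ℝ) / Nat.totient W) * T3 =
      r * ((T1 - T2) + (T2 - (Nat.count (good (Fs s a) W) W : ℝ) / W * T3)) := by
    rw [← hr]
    ring
  rw [e1, abs_mul, abs_of_nonneg hr0]
  refine mul_le_mul_of_nonneg_left ?_ hr0
  refine (abs_add_le _ _).trans ?_
  have h6 : (9 * (W : ℝ) + 8) * g 0 = 8 * g 0 + 9 * (W * g 0) := by ring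
  rw [h6]
  exact add_le_add h2 h4

/-- many indices -/
lemma cop_ge (Q : Finset ℕ) (hQ : ∀ p ∈ Q, p.Prime) :
    ∀ᶠ x : ℕ in atTop, ∀ c : ℕ, (x : ℝ) ^ (1 / 2 : ℝ) ≤
      ((cop (JJ x c) (TT x c) (∏ p ∈ Q, p)).card : ℝ) := by
  classical
  set W := ∏ p ∈ Q, p with hWdef
  have hW : 0 < W := Finset.prod_pos fun q hq => (hQ q hq).pos
  have hW' : (1 : ℝ) ≤ W := by exact_mod_cast hW
  have t1 : Tendsto (fun n : ℕ => (n : ℝ) ^ (1 / 2 : ℝ)) atTop atTop :=
    (tendsto_rpow_atTop (by norm_num)).comp tendsto_natCast_atTop_atTop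
  filter_upwards [t1.eventually_ge_atTop ((W : ℝ) * (W + 9)), eventually_ge_atTop 1] with x h1 hx c
  set y : ℝ := (x : ℝ) ^ (1 / 2 : ℝ) with hy
  have hx1 : (1 : ℝ) ≤ x := by exact_mod_cast hx
  have hy2 : (x : ℝ) = y * y := by
    rw [hy, ← Real.rpow_add (by linarith)]
    norm_num
  have hy1 : 1 ≤ y := Real.one_le_rpow hx1 (by norm_num)
  set a := ea c
  set s := es c
  have h2 : Nat.count (good (Fs s a) W) x ≤ (cop (JJ x c) (TT x c) W).card + 8 := by
    rw [Nat.count_eq_card_filter_range]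
    have h3 : (Finset.range x).filter (good (Fs s a) W) ⊆ cop (JJ x c) (TT x c) W ∪
        (Finset.range x).filter (fun j => ¬ 2 ≤ val a s j) := by
      intro j hj
      rw [Finset.mem_filter] at hj
      rw [Finset.mem_union]
      by_cases h4 : 2 ≤ val a s j
      · left
        unfold cop JJ TT
        rw [Finset.mem_filter, Finset.mem_filter]
        refine ⟨⟨hj.1, h4⟩, ?_⟩
        intro t ht
        rw [Finset.mem_singleton] at ht
        rw [ht]
        exact (good_iff s a W j).1 hj.2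
      · right
        exact Finset.mem_filter.2 ⟨hj.1, h4⟩
    have h5 := (Finset.card_le_card h3).trans (Finset.card_union_le _ _)
    have h6 := small_le a s x
    exact h5.trans (Nat.add_le_add_left h6 _)
  have h3 := (abs_le.1 (count_bound (good (Fs s a) W) W hW (good_periodic (Fs s a) W) x)).1
  have h4 : 1 ≤ Nat.count (good (Fs s a) W) W := by
    have h5 := coef_eq Q hQ s a
    rw [← hWdef] at h5
    have h6 := coef_ge Q hQ a
    by_contra hcon
    have h7 : Nat.count (good (Fs s a) W) W = 0 := by omega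
    rw [h7] at h5
    simp at h5
    linarith [h6.1, h6.2]
  have h4' : (1 : ℝ) ≤ Nat.count (good (Fs s a) W) W := by exact_mod_cast h4
  have h5 : (x : ℝ) / W ≤ x * ((Nat.count (good (Fs s a) W) W : ℝ) / W) := by
    rw [div_eq_mul_one_div]
    refine mul_le_mul_of_nonneg_left ?_ (by linarith)
    exact div_le_div_of_nonneg_right h4' (by linarith)
  have h6 : y * (W + 9) ≤ (x : ℝ) / W := by
    rw [le_div_iff₀ (by linarith), hy2]
    nlinarith
  have h7 : (Nat.count (good (Fs s a) W) x : ℝ) ≤ ((cop (JJ x c) (TT x c) W).card : ℝ) + 8 := by exact_mod_cast h2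
  nlinarith

/-- **the law** -/
theorem law (hS : ∀ n, MeasurableSet[ℱ n] (S n)) (Q : Finset ℕ) (hQ : ∀ p ∈ Q, p.Prime)
    (hcop : ∀ n, (∃ p ∈ Q, p ∣ n) → S n = ∅)
    (hd : ∀ᵐ ω ∂μ, Tendsto (fun n : ℕ => dens μ ℱ S n ω * Real.log n)
      (atTop ⊓ 𝓟 {n : ℕ | ∀ p ∈ Q, ¬ p ∣ n + 1}) (𝓝 (∏ p ∈ Q, (1 - 1 / (p : ℝ))⁻¹))) (C : ℕ) :
    ∀ᵐ ω ∂μ, ∀ ε : ℝ, 0 < ε → ∃ x₀ : ℕ, ∀ x ≥ x₀, ∀ a z : ℤ, a.natAbs ≤ x ^ C → z.natAbs ≤ x ^ C →
      |(({n : ℤ | z < n ∧ n ≤ z + x ∧ ω ∈ S (n ^ 2 + a).natAbs}.ncard : ℕ) : ℝ) - MT Q a z x| ≤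
      ε * MT Q a z x := by
  classical
  set W := ∏ p ∈ Q, p with hWdef
  have hW : 0 < W := Finset.prod_pos fun q hq => (hQ q hq).pos
  have hc : ∀ n, Nat.Coprime n W ↔ ∀ p ∈ Q, ¬ p ∣ n := by
    intro n
    rw [hWdef, Nat.coprime_prod_right_iff]
    refine forall₂_congr fun p hp => ?_
    rw [Nat.coprime_comm]
    exact Nat.Prime.coprime_iff_not_dvd (hQ p hp)
  set Sx : Set (ℕ × ℕ) := {q | 3 ≤ q.1 ∧ ∃ a s : ℤ, a.natAbs ≤ q.1 ^ C ∧ s.natAbs ≤ q.1 ^ C + 1 ∧ q.2 = ec a s}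
    with hSx
  have hgen := gen (μ := μ) (ℱ := ℱ) (A := S) hS W hW (fun n hn => hcop n (by
    rw [hc] at hn
    push Not at hn
    exact hn)) (by
    rw [totient_prod Q hQ]
    simp_rw [hc]
    exact hd) 1 4 (2 * C + 4) (1 / 2) (by norm_num) (by norm_num) JJ TT
    (fun x c j _ => Finset.card_singleton _)
    (fun x c j hj t ht => by
      unfold TT at ht
      rw [Finset.mem_singleton] at ht
      rw [ht]
      exact (Finset.mem_filter.1 hj).2)
    (fun x c t => by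
      refine le_trans (Finset.card_le_card ?_) (mult_le (es c) (ea c) t x)
      intro j hj
      rw [Finset.mem_filter] at hj ⊢
      unfold TT JJ at hj
      rw [Finset.mem_singleton, Finset.mem_filter] at hj
      exact ⟨hj.1.1, hj.2.symm⟩)
    Sx
    (by
      rintro x c ⟨h1, a, s, h2, h3, h4⟩
      simp only at h1 h2 h3 h4
      rw [h4]
      exact ec_le a s C x h1 h2 h3)
    (by
      rintro x c ⟨h1, a, s, h2, h3, h4⟩ j hj t ht
      simp only at h1 h2 h3 h4
      unfold TT at ht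
      unfold JJ at hj
      rw [Finset.mem_singleton] at ht
      rw [Finset.mem_filter, Finset.mem_range] at hj
      rw [ht, h4, ea_ec, es_ec]
      exact val_le a s C x j h1 h2 h3 hj.1)
    (by
      filter_upwards [cop_ge Q hQ] with x hx c _
      exact hx c)
  set π := ∏ p ∈ Q.erase 2, (1 - 1 / ((p : ℝ) - 1)) with hπdef
  have hπ := (coef_ge Q hQ 0).2
  have hbig : ∀ B : ℝ, ∀ᶠ x : ℕ in atTop, B ≤ π * (x / ((2 * C + 4) * Real.log x)) := by
    intro B
    have h1 := pow_log (π / (2 * C + 4)) 1 (by positivity) one_pos 1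
    filter_upwards [h1.eventually_ge_atTop B] with x hx
    refine hx.trans (le_of_eq ?_)
    rw [Real.rpow_one, pow_one]
    by_cases hl : Real.log x = 0
    · simp [hl]
    · field_simp
  set K : ℝ := ((W : ℝ) / Nat.totient W) * ((9 * (W : ℝ) + 8) * g 0) with hK
  have hK0 : 0 ≤ K := by
    have := g_pos 0
    positivity
  filter_upwards [hgen] with ω hω ε hε
  obtain ⟨η, hη0, hη1, hηε⟩ : ∃ η : ℝ, 0 < η ∧ η ≤ 1 ∧ 4 * η ≤ ε := by
    refine ⟨min (ε / 4) 1, lt_min (by positivity) one_pos, min_le_right _ _, ?_⟩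
    have : min (ε / 4) 1 ≤ ε / 4 := min_le_left _ _
    linarith
  obtain ⟨x₁, hx₁⟩ := hω η hη0
  obtain ⟨x₂, hx₂⟩ := eventually_atTop.1 (hbig ((K + 8) / η))
  refine ⟨max (max x₁ x₂) 3, fun x hx a z ha hz => ?_⟩
  have k1 : x₁ ≤ x := (le_max_left _ _).trans ((le_max_left _ _).trans hx)
  have k2 : x₂ ≤ x := (le_max_right _ _).trans ((le_max_left _ _).trans hx)
  have k3 : 3 ≤ x := (le_max_right _ _).trans hx
  have hs : (z + 1).natAbs ≤ x ^ C + 1 := by omega
  have h1 := hx₁ x k1 (ec a (z + 1)) ⟨k3, a, z + 1, ha, hs, rfl⟩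
  have h2 := EE_eq Q hQ a z x
  rw [← hWdef] at h2
  have h3 := (hx₂ x k2).trans (MT_ge Q hQ a z C x k3 ha hz)
  rw [div_le_iff₀ hη0] at h3
  have h4 : (cho S (JJ x (ec a (z + 1))) (TT x (ec a (z + 1))) ω).card ≤
      {n : ℤ | z < n ∧ n ≤ z + x ∧ ω ∈ S (n ^ 2 + a).natAbs}.ncard ∧
      {n : ℤ | z < n ∧ n ≤ z + x ∧ ω ∈ S (n ^ 2 + a).natAbs}.ncard ≤
      (cho S (JJ x (ec a (z + 1))) (TT x (ec a (z + 1))) ω).card + 8 := by
    rw [card_window (fun m => ω ∈ S m) a z x]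
    constructor
    · apply Finset.card_le_card
      intro j hj
      unfold cho JJ TT at hj
      rw [Finset.mem_filter, Finset.mem_filter, ea_ec, es_ec] at hj
      exact Finset.mem_filter.2 ⟨hj.1.1, hj.2 _ (Finset.mem_singleton_self _)⟩
    · have h5 : (Finset.range x).filter (fun j => ω ∈ S (val a (z + 1) j)) ⊆
          cho S (JJ x (ec a (z + 1))) (TT x (ec a (z + 1))) ω ∪
          (Finset.range x).filter (fun j => ¬ 2 ≤ val a (z + 1) j) := by
        intro j hj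
        rw [Finset.mem_filter] at hj
        rw [Finset.mem_union]
        by_cases h6 : 2 ≤ val a (z + 1) j
        · left
          unfold cho JJ TT
          rw [Finset.mem_filter, Finset.mem_filter, ea_ec, es_ec]
          refine ⟨⟨hj.1, h6⟩, fun t ht => ?_⟩
          rw [Finset.mem_singleton] at ht
          rw [ht]
          exact hj.2
        · right
          exact Finset.mem_filter.2 ⟨hj.1, h6⟩
      have h6 := (Finset.card_le_card h5).trans (Finset.card_union_le _ _)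
      have h7 := small_le a (z + 1) x
      omega
  obtain ⟨h4a, h4b⟩ := h4
  set N : ℕ := {n : ℤ | z < n ∧ n ≤ z + x ∧ ω ∈ S (n ^ 2 + a).natAbs}.ncard
  set R : ℕ := (cho S (JJ x (ec a (z + 1))) (TT x (ec a (z + 1))) ω).card
  have h5a : (R : ℝ) ≤ N := by exact_mod_cast h4a
  have h5b : (N : ℝ) ≤ R + 8 := by exact_mod_cast h4b
  set E := EE W (JJ x (ec a (z + 1))) (TT x (ec a (z + 1)))
  set M := MT Q a z x
  have k4 := abs_le.1 h1
  have k5 := abs_le.1 h2
  have hM0 : 0 ≤ M := by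
    have : 0 ≤ η * M := by linarith
    by_contra hcon
    push Not at hcon
    nlinarith
  have k6 : η * E ≤ η * (M + K) := mul_le_mul_of_nonneg_left (by linarith) hη0.le
  have k7 : η * K ≤ 1 * K := mul_le_mul_of_nonneg_right hη1 hK0
  have k8 : 4 * η * M ≤ ε * M := mul_le_mul_of_nonneg_right hηε hM0
  have k9 : (K + 8) ≤ η * M := by linarith
  rw [abs_le]
  constructor <;> nlinarith

end Pool.Agent.N223.SQ
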