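import Mathlib
import Pool.Agent.N223.SQ.Law

set_option autoImplicit false

/-! # The main term for a fixed `a` -/

open Filter
open scoped Topology

namespace Pool.Agent.N223.SQ

/-- the sum of `1 / log n` -/
noncomputable def Lam (M : ℕ) : ℝ := ∑ i ∈ Finset.range M, 1 / Real.log ((i : ℝ) + 2)

lemma term_pos (i : ℕ) : 0 < 1 / Real.log ((i : ℝ) + 2) := by
  have : 0 < Real.log ((i : ℝ) + 2) := Real.log_pos (by have : (0 : ℝ) ≤ i := Nat.cast_nonneg i; linarith)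
  positivity

lemma Lam_top : Tendsto Lam atTop atTop := by
  have h1 : Tendsto (fun M : ℕ => ∑ i ∈ Finset.range M, 1 / ((i : ℝ) + 1)) atTop atTop := by
    have := Real.tendsto_sum_range_one_div_nat_succ_atTop
    exact this
  refine tendsto_atTop_mono (fun M => Finset.sum_le_sum fun i _ => ?_) h1
  have h2 : 0 < Real.log ((i : ℝ) + 2) := Real.log_pos (by have : (0 : ℝ) ≤ i := Nat.cast_nonneg i; linarith)
  apply one_div_le_one_div_of_le h2
  have h3 := Real.log_le_sub_one_of_pos (show (0 : ℝ) < (i : ℝ) + 2 by positivity)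
  linarith

lemma anti_log (M : ℕ) : AntitoneOn (fun t : ℝ => 1 / Real.log t) (Set.Icc 2 (2 + (M : ℝ))) := by
  intro x hx y _ hxy
  have h1 : 0 < Real.log x := Real.log_pos (by linarith [hx.1])
  exact one_div_le_one_div_of_le h1 (Real.log_le_log (by linarith [hx.1]) hxy)

lemma int_bounds (M : ℕ) :
    Lam M - 1 / Real.log 2 ≤ ∫ t in (2 : ℝ)..((M + 2 : ℕ) : ℝ), 1 / Real.log t ∧
    ∫ t in (2 : ℝ)..((M + 2 : ℕ) : ℝ), 1 / Real.log t ≤ Lam M := by
  have e : ((M + 2 : ℕ) : ℝ) = 2 + (M : ℝ) := by push_cast; ring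
  have h1 := (anti_log M).integral_le_sum
  have h2 := (anti_log M).sum_le_integral
  rw [e]
  constructor
  · refine le_trans ?_ h2
    have h3 : Lam (M + 1) = 1 / Real.log 2 + ∑ i ∈ Finset.range M, 1 / Real.log (2 + ((i + 1 : ℕ) : ℝ)) := by
      unfold Lam
      rw [Finset.sum_range_succ', add_comm]
      congr 1
      · norm_num
      · refine Finset.sum_congr rfl fun i _ => ?_
        rw [add_comm (2 : ℝ)]
    have h4 : Lam M ≤ Lam (M + 1) := by
      unfold Lam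
      rw [Finset.sum_range_succ]
      have := term_pos M
      linarith
    linarith
  · refine h1.trans (le_of_eq ?_)
    unfold Lam
    refine Finset.sum_congr rfl fun i _ => ?_
    rw [add_comm (2 : ℝ)]

lemma w_lim (a : ℤ) : Tendsto (fun i : ℕ => w a ((i : ℤ) + 2) * Real.log ((i : ℝ) + 2)) atTop (𝓝 (1 / 2)) := by
  have c2 : Tendsto (fun i : ℕ => (i : ℝ) + 2) atTop atTop :=
    tendsto_natCast_atTop_atTop.atTop_add tendsto_const_nhds
  have h1 : Tendsto (fun i : ℕ => Real.log ((i : ℝ) + 2)) atTop atTop := Real.tendsto_log_atTop.comp c2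
  have h2 : Tendsto (fun i : ℕ => 1 + (a : ℝ) / ((i : ℝ) + 2) ^ 2) atTop (𝓝 1) := by
    have h3 : Tendsto (fun i : ℕ => (a : ℝ) / ((i : ℝ) + 2) ^ 2) atTop (𝓝 0) :=
      tendsto_const_nhds.div_atTop ((tendsto_pow_atTop (by norm_num)).comp c2)
    simpa using h3.const_add 1
  have h3 : Tendsto (fun i : ℕ => Real.log (1 + (a : ℝ) / ((i : ℝ) + 2) ^ 2)) atTop (𝓝 0) := by
    have := (Real.continuousAt_log (show (1 : ℝ) ≠ 0 by norm_num)).tendsto.comp h2
    rwa [Real.log_one] at this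
  have h4 : Tendsto (fun i : ℕ => 2 + Real.log (1 + (a : ℝ) / ((i : ℝ) + 2) ^ 2) / Real.log ((i : ℝ) + 2)) atTop (𝓝 2) := by
    have h5 := h3.div_atTop h1
    simpa using h5.const_add 2
  have h5 := h4.inv₀ (by norm_num)
  rw [one_div]
  refine h5.congr' ?_
  have h6 : ∀ᶠ i : ℕ in atTop, a.natAbs + 3 ≤ i := eventually_ge_atTop _
  filter_upwards [h6] with i hi
  have h7 : (2 : ℤ) ≤ ((i : ℤ) + 2) ^ 2 + a := by
    have : (a.natAbs : ℤ) + 3 ≤ i := by exact_mod_cast hi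
    have h8 : -(a.natAbs : ℤ) ≤ a := by omega
    nlinarith
  have hy : (0 : ℝ) < (i : ℝ) + 2 := by positivity
  have h9 : 0 < Real.log ((i : ℝ) + 2) := Real.log_pos (by have : (0 : ℝ) ≤ i := Nat.cast_nonneg i; linarith)
  unfold w g
  have e1 : max (((i : ℤ) + 2) ^ 2 + a).natAbs 2 = (((i : ℤ) + 2) ^ 2 + a).natAbs := max_eq_left (by omega)
  rw [e1]
  have e2 : (((((i : ℤ) + 2) ^ 2 + a).natAbs : ℕ) : ℝ) = ((i : ℝ) + 2) ^ 2 + a := by
    have : (((((i : ℤ) + 2) ^ 2 + a).natAbs : ℕ) : ℤ) = ((i : ℤ) + 2) ^ 2 + a := Int.natAbs_of_nonneg (by omega)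
    have h10 : (((((i : ℤ) + 2) ^ 2 + a).natAbs : ℤ) : ℝ) = ((((i : ℤ) + 2) ^ 2 + a : ℤ) : ℝ) := by rw [this]
    rw [← Int.cast_natCast, h10]
    push_cast
    ring
  rw [e2]
  have h11 : (0 : ℝ) < ((i : ℝ) + 2) ^ 2 + a := by
    have : ((2 : ℤ) : ℝ) ≤ ((((i : ℤ) + 2) ^ 2 + a : ℤ) : ℝ) := by exact_mod_cast h7
    push_cast at this
    linarith
  have e3 : ((i : ℝ) + 2) ^ 2 + a = ((i : ℝ) + 2) ^ 2 * (1 + (a : ℝ) / ((i : ℝ) + 2) ^ 2) := by
    field_simp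
  have h12 : (0 : ℝ) < 1 + (a : ℝ) / ((i : ℝ) + 2) ^ 2 := by
    by_contra hcon
    push Not at hcon
    rw [e3] at h11
    nlinarith [pow_pos hy 2]
  rw [e3, Real.log_mul (by positivity) h12.ne', Real.log_pow]
  rw [show (2 : ℝ) + Real.log (1 + (a : ℝ) / ((i : ℝ) + 2) ^ 2) / Real.log ((i : ℝ) + 2) =
    ((2 : ℕ) * Real.log ((i : ℝ) + 2) + Real.log (1 + (a : ℝ) / ((i : ℝ) + 2) ^ 2)) / Real.log ((i : ℝ) + 2) by
      push_cast
      field_simp]
  rw [inv_div]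
  ring

/-- **the main term for a fixed `a`** -/
theorem L_equiv (a : ℤ) : Asymptotics.IsEquivalent atTop
    (fun N : ℕ => ∑ n ∈ Finset.Ioc (0 : ℤ) (0 + (N : ℤ)), w a n)
    (fun N : ℕ => (1 / 2 : ℝ) * ∫ t in (2 : ℝ)..(N : ℝ), 1 / Real.log t) := by
  have h1 : (fun i : ℕ => w a ((i : ℤ) + 2) - 1 / 2 * (1 / Real.log ((i : ℝ) + 2))) =o[atTop]
      (fun i : ℕ => 1 / Real.log ((i : ℝ) + 2)) := by
    rw [Asymptotics.isLittleO_iff_tendsto' (by
      filter_upwards with i h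
      exact absurd h (term_pos i).ne')]
    have h2 := (w_lim a).sub_const (1 / 2)
    rw [sub_self] at h2
    refine h2.congr fun i => ?_
    have h9 : 0 < Real.log ((i : ℝ) + 2) := Real.log_pos (by have : (0 : ℝ) ≤ i := Nat.cast_nonneg i; linarith)
    field_simp
  have h2 := h1.sum_range (fun i => (term_pos i).le) Lam_top
  rw [Asymptotics.IsEquivalent, Asymptotics.isLittleO_iff]
  intro c hc
  have h3 := (Asymptotics.isLittleO_iff.1 h2) (show 0 < c / 8 by positivity)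
  set K : ℝ := 2 * g 0 + 1 / Real.log 2 with hK
  have hl2 : 0 < 1 / Real.log 2 := div_pos one_pos (Real.log_pos (by norm_num))
  have hK0 : 0 < K := by
    have := g_pos 0
    positivity
  have h4 : ∀ᶠ M : ℕ in atTop, 8 * K / c + 2 * (1 / Real.log 2) ≤ Lam M := Lam_top.eventually_ge_atTop _
  obtain ⟨M₀, hM₀⟩ := eventually_atTop.1 (h3.and h4)
  rw [eventually_atTop]
  refine ⟨M₀ + 2, fun N hN => ?_⟩
  obtain ⟨M, rfl⟩ : ∃ M, N = M + 2 := ⟨N - 2, by omega⟩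
  obtain ⟨h5, h6⟩ := hM₀ M (by omega)
  obtain ⟨h7, h8⟩ := int_bounds M
  set I := ∫ t in (2 : ℝ)..((M + 2 : ℕ) : ℝ), 1 / Real.log t with hI
  have e : ∑ n ∈ Finset.Ioc (0 : ℤ) (0 + ((M + 2 : ℕ) : ℤ)), w a n =
      w a 1 + w a ((M : ℤ) + 2) + ∑ i ∈ Finset.range M, w a ((i : ℤ) + 2) := by
    have e1 : ∀ i : ℕ, (((i + 1 : ℕ) : ℤ) + (0 + 1)) = (i : ℤ) + 2 := fun i => by push_cast; ring
    rw [sum_window, Finset.sum_range_succ', Finset.sum_range_succ, e1, Finset.sum_congr rfl (fun i _ => by rw [e1 i])]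
    have e3 : (((0 : ℕ) : ℤ) + (0 + 1)) = 1 := by norm_num
    rw [e3]
    ring
  have hw : ∀ n, 0 ≤ w a n ∧ w a n ≤ g 0 := fun n => ⟨(g_pos _).le, g_le _⟩
  have h9 : |∑ i ∈ Finset.range M, w a ((i : ℤ) + 2) - 1 / 2 * Lam M| ≤ c / 8 * Lam M := by
    rw [Real.norm_eq_abs, Real.norm_eq_abs] at h5
    have e2 : ∑ i ∈ Finset.range M, (w a ((i : ℤ) + 2) - 1 / 2 * (1 / Real.log ((i : ℝ) + 2))) =
        ∑ i ∈ Finset.range M, w a ((i : ℤ) + 2) - 1 / 2 * Lam M := by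
      rw [Finset.sum_sub_distrib]
      unfold Lam
      rw [Finset.mul_sum]
    rw [e2] at h5
    have e3 : |∑ i ∈ Finset.range M, 1 / Real.log ((i : ℝ) + 2)| = Lam M := abs_of_nonneg
      (Finset.sum_nonneg fun i _ => (term_pos i).le)
    rwa [e3] at h5
  have hLam0 : 0 ≤ Lam M := Finset.sum_nonneg fun i _ => (term_pos i).le
  have h10 : 8 * K ≤ c * Lam M := by
    have : 8 * K / c ≤ Lam M := by linarith
    rw [div_le_iff₀ hc] at this
    linarith
  have h11 : Lam M ≤ 2 * I := by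
    have : 0 < 8 * K / c := by positivity
    linarith
  have h12 : |(w a 1 + w a ((M : ℤ) + 2) + ∑ i ∈ Finset.range M, w a ((i : ℤ) + 2)) - 1 / 2 * I| ≤
      c / 4 * Lam M := by
    have a1 := abs_le.1 h9
    have b1 := hw 1
    have b2 := hw ((M : ℤ) + 2)
    rw [abs_le]
    constructor
    · linarith [a1.1]
    · linarith [a1.2]
  show ‖(∑ n ∈ Finset.Ioc (0 : ℤ) (0 + ((M + 2 : ℕ) : ℤ)), w a n) - 1 / 2 * I‖ ≤ c * ‖(1 / 2 : ℝ) * I‖
  rw [e, Real.norm_eq_abs, Real.norm_eq_abs]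
  refine h12.trans ?_
  have h13 : 0 ≤ 1 / 2 * I := by linarith
  rw [abs_of_nonneg h13]
  nlinarith

end Pool.Agent.N223.SQ
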